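import Pool.Agent.BLP.StmtsM

/-!
# Squad BLP (MP_2ae58c_pr), row M_EXL: exponential moment of the last-passage value
-/

set_option autoImplicit false

namespace Pool.Agent.BLP.H9

open MeasureTheory ProbabilityTheory Filter Topology Finset
open scoped ENNReal

noncomputable section

/-- extension by zero -/
def ex (N : ℕ) (d : Fin N → ℕ) (i : ℕ) : ℕ := if h : i < N then d ⟨i, h⟩ else 0

/-- sums of the first terms -/
def SS (N : ℕ) (d : Fin N → ℕ) (r : ℕ) : ℕ := ∑ i ∈ range r, ex N d i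

/-- the increments with sum `N` -/
def DD (N : ℕ) : Finset (Fin N → ℕ) :=
  (Fintype.piFinset fun _ : Fin N => range (N + 1)).filter fun d => ∑ i, d i = N

theorem card_DD (N : ℕ) : ((DD N).card : ℝ) ≤ 4 ^ N := by
  have h1 : ∑ d ∈ DD N, ∏ i, ((1 : ℝ) / 2) ^ (d i) ≤ 2 ^ N := by
    calc ∑ d ∈ DD N, ∏ i, ((1 : ℝ) / 2) ^ (d i)
        ≤ ∑ d ∈ Fintype.piFinset (fun _ : Fin N => range (N + 1)), ∏ i, ((1 : ℝ) / 2) ^ (d i) :=
          sum_le_sum_of_subset_of_nonneg (filter_subset _ _) (fun _ _ _ => by positivity)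
      _ = ∏ _i : Fin N, ∑ j ∈ range (N + 1), ((1 : ℝ) / 2) ^ j :=
          (Finset.prod_univ_sum _ _).symm
      _ ≤ ∏ _i : Fin N, (2 : ℝ) :=
          prod_le_prod (fun _ _ => by positivity) (fun _ _ => sum_geometric_two_le _)
      _ = 2 ^ N := by simp
  have h2 : ∑ d ∈ DD N, ∏ i, ((1 : ℝ) / 2) ^ (d i) = (DD N).card * ((1 : ℝ) / 2) ^ N := by
    rw [← nsmul_eq_mul, ← sum_const]
    refine sum_congr rfl fun d hd => ?_
    rw [prod_pow_eq_pow_sum, (mem_filter.1 hd).2]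
  rw [h2] at h1
  have h3 : ((DD N).card : ℝ) = ((DD N).card * ((1 : ℝ) / 2) ^ N) * 2 ^ N := by
    rw [mul_assoc, ← mul_pow]
    norm_num
  have h4 : (4 : ℝ) ^ N = 2 ^ N * 2 ^ N := by
    rw [← mul_pow]; norm_num
  rw [h3, h4]
  exact mul_le_mul_of_nonneg_right h1 (by positivity)

theorem ss_mono (N : ℕ) (d : Fin N → ℕ) : Monotone (SS N d) :=
  monotone_nat_of_le_succ fun r => by
    unfold SS
    rw [sum_range_succ]
    exact Nat.le_add_right _ _

theorem ss_zero (N : ℕ) (d : Fin N → ℕ) : SS N d 0 = 0 := by simp [SS]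

theorem ss_N (N : ℕ) (d : Fin N → ℕ) : SS N d N = ∑ i, d i := by
  unfold SS
  rw [← Fin.sum_univ_eq_sum_range]
  refine sum_congr rfl fun i _ => ?_
  unfold ex
  rw [dif_pos i.2]

/-- the upper bound for one environment -/
theorem exp_le (hcel : CelStmt) (b : Env) (hb : Cts b) (N : ℕ) (hN : 1 ≤ N) :
    Real.exp (L b 0 0 ((N : ℤ) - 1) N) ≤
      ∑ d ∈ DD N, ∏ r ∈ range N, Real.exp (Xc b r (SS N d r) (SS N d (r + 1))) := by
  obtain ⟨d, hd, hL⟩ := hcel b hb N hN
  set d' : Fin N → ℕ := fun i => d i with hd'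
  have hex : ∀ i < N, ex N d' i = d i := by
    intro i hi
    unfold ex
    rw [dif_pos hi]
  have hss : ∀ r ≤ N, SS N d' r = ∑ i ∈ range r, d i := by
    intro r hr
    unfold SS
    refine sum_congr rfl fun i hi => hex i ?_
    have := mem_range.1 hi
    omega
  have hmem : d' ∈ DD N := by
    have hs : ∑ i, d' i = N := by
      rw [← ss_N, hss N le_rfl, hd]
    unfold DD
    rw [mem_filter]
    refine ⟨?_, hs⟩
    rw [Fintype.mem_piFinset]
    intro i
    rw [mem_range]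
    have : d' i ≤ ∑ i, d' i := single_le_sum (f := d') (fun _ _ => Nat.zero_le _) (mem_univ i)
    omega
  have h1 : L b 0 0 ((N : ℤ) - 1) N ≤
      ∑ r ∈ range N, Xc b r (SS N d' r) (SS N d' (r + 1)) := by
    refine hL.trans (le_of_eq ?_)
    refine sum_congr rfl fun r hr => ?_
    have := mem_range.1 hr
    rw [hss r (by omega), hss (r + 1) (by omega)]
  calc Real.exp (L b 0 0 ((N : ℤ) - 1) N)
      ≤ Real.exp (∑ r ∈ range N, Xc b r (SS N d' r) (SS N d' (r + 1))) := Real.exp_le_exp.2 h1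
    _ = ∏ r ∈ range N, Real.exp (Xc b r (SS N d' r) (SS N d' (r + 1))) := Real.exp_sum _ _
    _ ≤ _ := single_le_sum (f := fun d => ∏ r ∈ range N,
        Real.exp (Xc b r (SS N d r) (SS N d (r + 1))))
        (fun _ _ => prod_nonneg fun _ _ => (Real.exp_pos _).le) hmem

theorem m_exl : CelStmt → XinStmt → XmgStmt → MeaStmt → ExlStmt := by
  intro hcel hxin hxmg hmea X _ μ B hB
  obtain ⟨φ, hφ, hX⟩ := hxmg X μ B hB
  have hφ0 : 0 ≤ φ := by linarith
  have he : (1 : ℝ) ≤ Real.exp 1 := Real.one_le_exp (by norm_num)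
  refine ⟨4 * Real.exp 1 * φ, ?_, fun N hN => ?_⟩
  · nlinarith [mul_le_mul he hφ (by norm_num) (by positivity)]
  have hint : ∀ d : Fin N → ℕ, Integrable (fun x => ∏ r ∈ range N,
      Real.exp (Xc (B x) r (SS N d r) (SS N d (r + 1)))) μ :=
    fun d => (hxin X μ B hB N (SS N d) (ss_mono N d)).1
  have hsum : Integrable (fun x => ∑ d ∈ DD N, ∏ r ∈ range N,
      Real.exp (Xc (B x) r (SS N d r) (SS N d (r + 1)))) μ :=
    integrable_finset_sum _ fun d _ => hint d
  have hmeas : Measurable fun x => Real.exp (L (B x) 0 0 ((N : ℤ) - 1) N) :=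
    Real.measurable_exp.comp (hmea X μ B hB 0 0 ((N : ℤ) - 1) N)
  have hle : ∀ x, Real.exp (L (B x) 0 0 ((N : ℤ) - 1) N) ≤ ∑ d ∈ DD N, ∏ r ∈ range N,
      Real.exp (Xc (B x) r (SS N d r) (SS N d (r + 1))) :=
    fun x => exp_le hcel (B x) (hB.cts x) N hN
  have hI : Integrable (fun x => Real.exp (L (B x) 0 0 ((N : ℤ) - 1) N)) μ := by
    refine Integrable.mono' hsum hmeas.aestronglyMeasurable (ae_of_all _ fun x => ?_)
    rw [Real.norm_of_nonneg (Real.exp_pos _).le]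
    exact hle x
  refine ⟨hI, ?_⟩
  have hone : ∀ d ∈ DD N, ∫ x, ∏ r ∈ range N,
      Real.exp (Xc (B x) r (SS N d r) (SS N d (r + 1))) ∂μ ≤ φ ^ N * Real.exp 1 ^ N := by
    intro d hd
    rw [(hxin X μ B hB N (SS N d) (ss_mono N d)).2]
    have h1 : ∏ r ∈ range N, ∫ x, Real.exp (Xc (B x) r (SS N d r) (SS N d (r + 1))) ∂μ ≤
        ∏ r ∈ range N, (φ * Real.exp ((SS N d (r + 1) : ℝ) - SS N d r)) := by
      refine prod_le_prod (fun r _ => integral_nonneg fun x => (Real.exp_pos _).le)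
        fun r _ => (hX r (SS N d r) (SS N d (r + 1)) (ss_mono N d (Nat.le_succ r))).2.2
    refine h1.trans (le_of_eq ?_)
    rw [prod_mul_distrib, prod_const, card_range, ← Real.exp_sum,
      sum_range_sub (fun r => (SS N d r : ℝ)), ss_zero, ss_N, (mem_filter.1 hd).2,
      ← Real.exp_nat_mul]
    simp
  calc ∫ x, Real.exp (L (B x) 0 0 ((N : ℤ) - 1) N) ∂μ
      ≤ ∫ x, ∑ d ∈ DD N, ∏ r ∈ range N,
        Real.exp (Xc (B x) r (SS N d r) (SS N d (r + 1))) ∂μ := integral_mono hI hsum hle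
    _ = ∑ d ∈ DD N, ∫ x, ∏ r ∈ range N,
        Real.exp (Xc (B x) r (SS N d r) (SS N d (r + 1))) ∂μ :=
          integral_finset_sum _ fun d _ => hint d
    _ ≤ ∑ d ∈ DD N, φ ^ N * Real.exp 1 ^ N := sum_le_sum hone
    _ = (DD N).card * (φ ^ N * Real.exp 1 ^ N) := by rw [sum_const, nsmul_eq_mul]
    _ ≤ 4 ^ N * (φ ^ N * Real.exp 1 ^ N) :=
          mul_le_mul_of_nonneg_right (card_DD N) (by positivity)
    _ = (4 * Real.exp 1 * φ) ^ N := by
          rw [mul_pow, mul_pow]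
          ring

end

end Pool.Agent.BLP.H9
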