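import Pool.Agent.BLP.StmtsF
import Pool.Agent.BLP.StmtsA

/-!
# Squad BLP (MP_2ae58c_pr), row F_FMO: modulus of continuity
-/

set_option autoImplicit false

namespace Pool.Agent.BLP.H9

theorem f_fmo : FmoStmt := by
  intro hPab hOne hExi hSpk hPnt hQua b hb m M n R v e hmM hMn hR hRv hve hgood s t hs hst htR
  have hse : s ≤ e := by linarith
  obtain ⟨w, hRw, hwe, hw⟩ : ∃ w, R ≤ w ∧ w ≤ e ∧ L b m s n e = L b m s M w + L b M w n e := by
    obtain ⟨τ, hτ, hE⟩ := hExi b hb m n s e (hmM.trans hMn) hse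
    obtain ⟨h1, h2, -⟩ := hPab m n s e τ hτ (hmM.trans hMn)
    obtain ⟨h3, h4⟩ := h2 (M - 1) (by omega) (by omega)
    have h5 := hPnt b hb m M n s (τ (M - 1)) e τ hmM hMn hτ hE le_rfl
      (h1 (M - 1) M (by omega) (by omega) hMn)
    by_cases hu : R ≤ τ (M - 1)
    · exact ⟨τ (M - 1), hu, h4, h5⟩
    · have hu' : τ (M - 1) ≤ v := by linarith
      refine ⟨v, hRv, hve, ?_⟩
      have q1 := hQua b hb m m M M (-R) s (τ (M - 1)) v le_rfl hmM le_rfl hs h3 hu'
      have q2 := hSpk b hb m M n (-R) (τ (M - 1)) e hmM hMn (hs.trans h3) h4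
      have q3 := hSpk b hb m M n s v e hmM hMn (by linarith) hve
      refine le_antisymm ?_ q3
      linarith
  have k1 := hSpk b hb m M n t w e hmM hMn (htR.trans hRw) hwe
  have k2 := hQua b hb m m M M s t t w le_rfl hmM le_rfl hst le_rfl (htR.trans hRw)
  have k3 := (hOne b).2 m M t hmM
  linarith

end Pool.Agent.BLP.H9
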